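import Pool.Agent.H12.KTH.Stmts
import Pool.Agent.H32.Dense.Pair

/-!
# KTH, row DIR: `O - C` and `Y - C₂` are parallel to the line 1
-/

set_option autoImplicit false

namespace Pool.KTH

open Finset Real
open Pool.Agent.H49.Ent Pool.Agent.H32.Dense

variable {d J : ℕ}

lemma one_le_er (J : ℕ) {e : ℝ} (he : 0 ≤ e) : 1 ≤ er J e := by
  unfold er
  have : 0 ≤ Real.log ((J : ℝ) + 2) := Real.log_nonneg (by
    have : (0 : ℝ) ≤ J := Nat.cast_nonneg J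
    linarith)
  linarith

lemma big_nonneg (F : Cf d J) (x : F.Ω → ℤ) : 0 ≤ F.big x :=
  Ex_nonneg F.hq fun w _ => Real.log_nonneg (by
    have : (0 : ℝ) ≤ |(x w : ℝ)| / 2 ^ J := by positivity
    linarith)

lemma sml_nonneg (F : Cf d J) (x : F.Ω → ℤ) : 0 ≤ F.sml x :=
  Ex_nonneg F.hq fun w _ => Real.log_nonneg (by
    have : (0 : ℝ) ≤ 2 ^ J / max 1 |(x w : ℝ)| := by positivity
    linarith)

/-- The direction `v₁` from the points `(s, X s)` and `(s + c, X s + (c / M) v₁)`. -/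
lemma dir_aux {Ω : Type} [Fintype Ω] {ζ : Type} {q : Ω → ℝ} (hq : ∀ w, 0 ≤ q w)
    (h1 : ∑ w, q w = 1) (Z : Ω → ζ) (v v₁ : Ω → Fin d → ℤ) (u : Ω → Fin d → ℝ) (s c : Ω → ℤ)
    (hv₁ : ∀ w, 0 < q w → ∀ k, |v₁ w k| ≤ ((2 ^ J : ℕ) : ℤ)) :
    CH q v₁ (fun w => ((s w + c w, xf (2 ^ J) (u w) (v w) (s w) (c w) (v₁ w)), pp J u v s w,
      Z w)) ≤ d * (2 + Ex q (fun w => Real.log (1 + 2 ^ J / max 1 |(c w : ℝ)|))) := by
  have hM : 0 < 2 ^ J := by positivity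
  have h := CH_le_vec hq h1 v₁ (fun w => ((s w + c w, xf (2 ^ J) (u w) (v w) (s w) (c w) (v₁ w)),
    pp J u v s w, Z w)) (fun w => 2 * (((2 ^ J : ℕ) : ℝ) / max |(c w : ℝ)| 1)) (by
    intro w w' hw hw' hh k
    simp only [pp, Prod.mk.injEq] at hh
    obtain ⟨⟨hsc, hx⟩, ⟨hs, hp⟩, -⟩ := hh
    have hc : c w = c w' := by omega
    have e1 : |(pos (2 ^ J) (u w) (v w) (s w) k + (c w : ℝ) / ((2 ^ J : ℕ) : ℝ) * v₁ w k) -
        (pos (2 ^ J) (u w') (v w') (s w') k + (c w' : ℝ) / ((2 ^ J : ℕ) : ℝ) * v₁ w' k)| ≤ 1 :=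
      rd_close hx k
    have e2 := rd_close hp k
    refine gap_le hM (hv₁ w hw k) (hv₁ w' hw' k) ?_
    rw [← hc] at e1
    have e3 : (c w : ℝ) / ((2 ^ J : ℕ) : ℝ) * ((v₁ w k : ℝ) - v₁ w' k) =
        ((pos (2 ^ J) (u w) (v w) (s w) k + (c w : ℝ) / ((2 ^ J : ℕ) : ℝ) * v₁ w k) -
          (pos (2 ^ J) (u w') (v w') (s w') k + (c w : ℝ) / ((2 ^ J : ℕ) : ℝ) * v₁ w' k)) -
        (pos (2 ^ J) (u w) (v w) (s w) k - pos (2 ^ J) (u w') (v w') (s w') k) := by ring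
    rw [e3]
    refine (abs_sub _ _).trans ?_
    linarith)
  refine h.trans ?_
  refine mul_le_mul_of_nonneg_left ?_ (Nat.cast_nonneg d)
  have e0 : 2 + Ex q (fun w => Real.log (1 + 2 ^ J / max 1 |(c w : ℝ)|)) =
      Ex q (fun w => 2 + Real.log (1 + 2 ^ J / max 1 |(c w : ℝ)|)) := by
    rw [Ex_add, Ex_const h1]
  rw [e0]
  refine Ex_mono hq fun w _ => ?_
  have e : ((2 ^ J : ℕ) : ℝ) / max |(c w : ℝ)| 1 = 2 ^ J / max 1 |(c w : ℝ)| := by
    push_cast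
    rw [max_comm]
  rw [e]
  exact log_gap (y := 2 ^ J / max 1 |(c w : ℝ)|) (by positivity)

theorem dir (hCGP : CGPStmt) : DIRStmt := by
  intro d
  obtain ⟨C, hC, h⟩ := hCGP d
  have key : ∀ (J : ℕ) (F : Cf d J) (L sb e : ℝ), F.Ok L sb e → ∀ c : F.Ω → ℤ,
      F.sml c ≤ C * er J e → d * (2 + F.sml c) ≤ d * (2 + C) * er J e := by
    intro J F L sb e hF c hc
    have h1 := one_le_er J hF.e0
    have h2 : 2 + F.sml c ≤ (2 + C) * er J e := by nlinarith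
    calc (d : ℝ) * (2 + F.sml c) ≤ d * ((2 + C) * er J e) :=
          mul_le_mul_of_nonneg_left h2 (Nat.cast_nonneg d)
      _ = _ := by ring
  constructor
  · refine ⟨d * (2 + C), by positivity, fun J F L sb e hF => ?_⟩
    have a := h J F L sb e hF
    simp only at a ⊢
    have b1 := big_nonneg F F.c
    have b2 := big_nonneg F F.c₂
    have b3 := sml_nonneg F F.c₂
    refine le_trans ?_ (key J F L sb e hF F.c (by linarith))
    exact dir_aux F.hq F.h1 F.Z F.v₀ F.v₁ F.u₀ F.s F.c F.hv₁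
  · refine ⟨d * (2 + C), by positivity, fun J F L sb e hF => ?_⟩
    have a := h J F L sb e hF
    simp only at a ⊢
    have b1 := big_nonneg F F.c
    have b2 := big_nonneg F F.c₂
    have b3 := sml_nonneg F F.c
    refine le_trans ?_ (key J F L sb e hF F.c₂ (by linarith))
    exact dir_aux F.hq F.h1 F.Z F.v₂ F.v₁ F.u₂ F.tr F.c₂ F.hv₁

end Pool.KTH
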