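import Pool.Agent.H12.KTH.Stmts

/-!
# KTH, row DRV: the derived families have uniform times
-/

set_option autoImplicit false

namespace Pool.KTH

open Finset Real
open Pool.Agent.H49.Ent Pool.Agent.H32.Dense

variable {d J : ℕ}

lemma er_nonneg' (J : ℕ) {e : ℝ} (he : 0 ≤ e) : 0 ≤ er J e := by
  unfold er
  have : 0 ≤ Real.log ((J : ℝ) + 2) := Real.log_nonneg (by
    have : (0 : ℝ) ≤ J := Nat.cast_nonneg J
    linarith)
  linarith

/-- `O` is a function of the lines 0, 1 and of `s`, `c`. -/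
lemma det_O (F : Cf d J) :
    Det F.q (fun w => (F.v01 w, (F.t w, F.s w, F.c w), F.Z w)) (fun w => (F.v₁ w, F.O w, F.Z w)) := by
  intro w w' h h' hh
  simp only [Cf.v01, Prod.mk.injEq] at hh
  obtain ⟨⟨h0, h1⟩, ⟨ht, hs, hc⟩, hZ⟩ := hh
  have hu : F.u₀ w = F.u₀ w' := F.hu₀ w w' h h' (by simp only [h0, hZ])
  simp only [Cf.O, h0, h1, hs, hc, hZ, hu]

/-- `Y` is a function of the lines 1, 2 and of `tr`, `c₂`. -/
lemma det_Y (F : Cf d J) :
    Det F.q (fun w => (F.v3 w, (F.t w, F.s w, F.tr w, F.c₂ w), F.Z w))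
      (fun w => (F.v₂ w, F.Y w, F.Z w)) := by
  intro w w' h h' hh
  simp only [Cf.v3, Prod.mk.injEq] at hh
  obtain ⟨⟨h0, h1, h2⟩, ⟨ht, hs, htr, hc⟩, hZ⟩ := hh
  have hu : F.u₂ w = F.u₂ w' := F.hu₂ w w' h h' (by simp only [h2, hZ])
  simp only [Cf.Y, h1, h2, htr, hc, hZ, hu]

theorem drv (hUFC : UFCStmt) (hUFD : UFDStmt) : DRVStmt := by
  intro d
  obtain ⟨C1, hC1, h1⟩ := (hUFC d).2.2
  obtain ⟨C2, hC2, h2⟩ := (hUFD d).2.2.1
  refine ⟨C1 + C2, by linarith, fun J F L sb e hF => ?_⟩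
  have her := er_nonneg' J hF.e0
  have a1 := h1 J F L sb e hF
  have a2 := h2 J F L sb e hF
  have b1 := CH_mono_cond F.hq (X := F.r) (det_O F)
  have b2 := CH_mono_cond F.hq (X := F.ta) (det_Y F)
  have c1 : C1 * er J e ≤ (C1 + C2) * er J e := by nlinarith
  have c2 : C2 * er J e ≤ (C1 + C2) * er J e := by nlinarith
  constructor
  · change lm J - (C1 + C2) * er J e ≤ CH F.q F.r (fun w => (F.v₁ w, F.O w, F.Z w))
    simp only at a1
    linarith
  · change lm J - (C1 + C2) * er J e ≤ CH F.q F.ta (fun w => (F.v₂ w, F.Y w, F.Z w))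
    simp only at a2
    linarith

end Pool.KTH
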