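import Pool.Agent.H23.KTH.DIR

/-!
# KTH, row SPL: the lines 1 given `O` are spread
-/

set_option autoImplicit false

namespace Pool.KTH

open Finset Real
open Pool.Agent.H49.Ent Pool.Agent.H32.Dense
open Pool.Agent.H24.KTH (lev cap TWOStmt ONCStmt)

theorem spl (hTWO : TWOStmt) (hONC : ONCStmt) (hCGP : CGPStmt) : SPLStmt := by
  intro d _ N hN
  obtain ⟨C1, h1⟩ := hTWO d N (by omega)
  obtain ⟨C2, h2⟩ := hONC d N (by omega)
  obtain ⟨C3, hC3, h3⟩ := hCGP d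
  refine ⟨|C1| + |C2| * (C3 + 1), by positivity, fun J F L sb e μ τ hF hS => ?_⟩
  intro Ω' _ q pr w hq hm hw
  have hm' : Marg q F.q pr := hm
  have hs := (hS Ω' q pr w hq hm' hw).1
  have hsum : ∑ ω, q ω = 1 := hm'.sum.trans F.h1
  have her := one_le_er J hF.e0
  have hee : e ≤ er J e := by
    unfold er
    have : 0 ≤ Real.log ((J : ℝ) + 2) := Real.log_nonneg (by
      have : (0 : ℝ) ≤ J := Nat.cast_nonneg J
      linarith)
    linarith
  -- the family of the lines 0 with the time `s`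
  have hfam : IsFam (2 ^ J) q (fun ω => F.Z (pr ω)) (fun ω => F.v₀ (pr ω)) (fun ω => F.u₀ (pr ω))
      (fun ω => F.s (pr ω)) :=
    ⟨by positivity, hq, hsum, fun ω h => F.hv₀ _ (hm'.pos hq h),
      hm'.det hq F.hu₀, fun ω h => F.hs _ (hm'.pos hq h)⟩
  have hK : Kf (2 ^ J) q (bv (fun ω => F.Z (pr ω)) (fun ω => F.v₀ (pr ω)))
      (fun ω => F.s (pr ω)) ≤ e := by
    unfold Kf
    have e1 : CH q (fun ω => F.s (pr ω)) (bv (fun ω => F.Z (pr ω)) (fun ω => F.v₀ (pr ω))) =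
        CH F.q F.s (fun ω => (F.v₀ ω, F.Z ω)) :=
      hm'.CH F.s (fun ω => (F.v₀ ω, F.Z ω))
    rw [e1]
    have e2 : CH F.q F.s (fun w => ((F.v₀ w, F.v₁ w), F.t w, F.Z w)) ≤
        CH F.q F.s (fun ω => (F.v₀ ω, F.Z ω)) :=
      CH_mono_cond F.hq (by
        intro x x' _ _ hh
        simp only [Prod.mk.injEq] at hh ⊢
        exact ⟨hh.1.1, hh.2.2⟩)
    have e3 := hF.cs
    have e4 : Real.log ((2 ^ J : ℕ) : ℝ) = lm J := by
      unfold lm
      push_cast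
      rw [Real.log_pow]
    rw [e4]
    linarith
  have a1 := h1 J Ω' F.ζ q (fun ω => F.Z (pr ω)) (fun ω => F.v₀ (pr ω)) (fun ω => F.u₀ (pr ω))
    (fun ω => F.s (pr ω)) w e hfam hK hw
  have hbig : Ex q (fun ω => Real.log (1 + |(F.c (pr ω) : ℝ)| / 2 ^ J)) ≤ F.big F.c := by
    have := hm'.ex (fun w => Real.log (1 + |(F.c w : ℝ)| / 2 ^ J))
    exact le_of_eq this
  have a2 := h2 J Ω' F.ζ q (fun ω => F.Z (pr ω)) (fun ω => F.v₀ (pr ω)) (fun ω => F.v₁ (pr ω))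
    (fun ω => F.u₀ (pr ω)) (fun ω => F.s (pr ω)) (fun ω => F.c (pr ω))
    (fun ω => (F.O (pr ω)).2) w (F.big F.c) hfam
    (fun ω h k => by
      have := F.hv₁ _ (hm'.pos hq h) k
      push_cast at this
      exact this) hw
    (fun ω _ k => by
      have e5 : (F.O (pr ω)).2 k = ⌊pos (2 ^ J) (F.u₀ (pr ω)) (F.v₀ (pr ω)) (F.s (pr ω)) k +
        (F.c (pr ω) : ℝ) / ((2 ^ J : ℕ) : ℝ) * F.v₁ (pr ω) k⌋ := rfl
      rw [e5]
      push_cast
      have f1 := Int.floor_le (pos (2 ^ J) (F.u₀ (pr ω)) (F.v₀ (pr ω)) (F.s (pr ω)) k +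
        (F.c (pr ω) : ℝ) / 2 ^ J * F.v₁ (pr ω) k)
      have f2 := Int.lt_floor_add_one (pos (2 ^ J) (F.u₀ (pr ω)) (F.v₀ (pr ω)) (F.s (pr ω)) k +
        (F.c (pr ω) : ℝ) / 2 ^ J * F.v₁ (pr ω) k)
      rw [abs_le]
      constructor <;> linarith) hbig
  -- the middle term is `ic`
  have g1 : CH q (fun ω => (F.s (pr ω), rd (pos (2 ^ J) (F.u₀ (pr ω)) (F.v₀ (pr ω))
      (F.s (pr ω))))) (fun ω => F.Z (pr ω)) = CH F.q F.C F.Z := hm'.CH F.C F.Z
  have g2 : CH q (fun ω => (F.s (pr ω) + F.c (pr ω), (F.O (pr ω)).2)) (fun ω => F.Z (pr ω)) =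
      F.xh := hm'.CH F.O F.Z
  have g3 : CH q (fun ω => ((F.s (pr ω), rd (pos (2 ^ J) (F.u₀ (pr ω)) (F.v₀ (pr ω))
      (F.s (pr ω)))), (F.s (pr ω) + F.c (pr ω), (F.O (pr ω)).2))) (fun ω => F.Z (pr ω)) =
      CH F.q (fun w => (F.C w, F.O w)) F.Z := hm'.CH (fun w => (F.C w, F.O w)) F.Z
  have g4 : F.ic = CH F.q F.C F.Z + F.xh - CH F.q (fun w => (F.C w, F.O w)) F.Z := rfl
  rw [g1, g2, g3, ← g4] at a2
  have g5 : CH q (fun ω => cap J (lev J N (w ω)) (F.v₁ (pr ω)))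
      (fun ω => (w ω, (F.s (pr ω) + F.c (pr ω), (F.O (pr ω)).2), F.Z (pr ω))) =
      CH q (fun ω => cap J (lev J N (w ω)) (F.FL.v (pr ω))) (fun ω => (w ω, F.FL.Z (pr ω))) := rfl
  rw [g5] at a2
  have hb3 : F.big F.c ≤ C3 * er J e := by
    have a := h3 J F L sb e hF
    simp only at a
    have b2 := big_nonneg F F.c₂
    have b3 := sml_nonneg F F.c
    have b4 := sml_nonneg F F.c₂
    linarith
  have hb0 := big_nonneg F F.c
  have k1 : C1 * (e + 1) ≤ 2 * (|C1| * er J e) := by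
    have : e + 1 ≤ 2 * er J e := by linarith
    calc C1 * (e + 1) ≤ |C1| * (e + 1) :=
          mul_le_mul_of_nonneg_right (le_abs_self _) (by linarith [hF.e0])
      _ ≤ |C1| * (2 * er J e) := mul_le_mul_of_nonneg_left this (abs_nonneg _)
      _ = _ := by ring
  have k2 : C2 * (F.big F.c + 1) ≤ |C2| * (C3 + 1) * er J e := by
    have : F.big F.c + 1 ≤ (C3 + 1) * er J e := by nlinarith
    calc C2 * (F.big F.c + 1) ≤ |C2| * (F.big F.c + 1) :=
          mul_le_mul_of_nonneg_right (le_abs_self _) (by linarith)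
      _ ≤ |C2| * ((C3 + 1) * er J e) := mul_le_mul_of_nonneg_left this (abs_nonneg _)
      _ = _ := by ring
  have k3 : (|C1| + |C2| * (C3 + 1)) * er J e = |C1| * er J e + |C2| * (C3 + 1) * er J e := by ring
  rw [k3]
  linarith

end Pool.KTH
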