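import Pool.Agent.H12.KTH.Stmts

/-!
# KTH, row T1L: lower bound for the time `t₁`
-/

set_option autoImplicit false

namespace Pool.KTH

open Finset Real
open Pool.Agent.H49.Ent Pool.Agent.H32.Dense

theorem t1l (hUFT : UFTStmt) (hPAR : PARStmt) : T1LStmt := by
  intro d hd
  obtain ⟨C1, hC1, h1⟩ := hUFT d
  obtain ⟨C2, hC2, h2⟩ := (hPAR d hd).1
  refine ⟨C1 + C2, by linarith, fun J F L sb e hF => ?_⟩
  have a1 := h1 J F L sb e hF
  have a2 := h2 J F L sb e hF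
  simp only at a1 a2 ⊢
  -- `H(t₁, T_O | v₀ v₁ t r) ≤ H(t₁, O | v₀ v₁ r)`
  have b1 : CH F.q (fun w => (F.t₁ w, F.TO w)) (fun w => (F.v01 w, (F.t w, F.r w), F.Z w)) ≤
      CH F.q (fun w => (F.t₁ w, F.O w)) (fun w => (F.v01 w, (F.t w, F.r w), F.Z w)) :=
    CH_mono_left F.hq (by
      intro w w' _ _ hh
      simp only [Prod.mk.injEq] at hh
      have h3 := congrArg Prod.fst hh.1.2
      simp only [Cf.O] at h3
      simp only [Cf.TO, hh.1.1, h3])
  have b2 : CH F.q (fun w => (F.t₁ w, F.O w)) (fun w => (F.v01 w, (F.t w, F.r w), F.Z w)) ≤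
      CH F.q (fun w => (F.t₁ w, F.O w)) (fun w => (F.v01 w, F.r w, F.Z w)) :=
    CH_mono_cond F.hq (by
      intro w w' _ _ hh
      simp only [Prod.mk.injEq] at hh ⊢
      exact ⟨hh.1, hh.2.1.2, hh.2.2⟩)
  have b3 := CH_chain F.hq F.t₁ F.O (fun w => (F.v01 w, F.r w, F.Z w))
  have b4 : CH F.q F.O (fun w => (F.v01 w, F.r w, F.Z w)) ≤ CH F.q F.O (fun w => (F.v01 w, F.Z w)) :=
    CH_mono_cond F.hq (by
      intro w w' _ _ hh
      simp only [Prod.mk.injEq] at hh ⊢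
      exact ⟨hh.1, hh.2.2⟩)
  have b5 : CH F.q F.t₁ (fun w => (F.O w, F.v01 w, F.r w, F.Z w)) ≤
      CH F.q F.t₁ (fun w => (F.v01 w, (F.O w, F.r w), F.Z w)) :=
    CH_mono_cond F.hq (by
      intro w w' _ _ hh
      simp only [Prod.mk.injEq] at hh ⊢
      exact ⟨hh.2.1, ⟨hh.1, hh.2.2.1⟩, hh.2.2.2⟩)
  have c : (C1 + C2) * er J e = C1 * er J e + C2 * er J e := by ring
  rw [c]
  linarith

end Pool.KTH
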